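import Pool.Agent.Q172.LT.Far

/-!
# Labelled trees, finite or infinite: large subcomplexes of contractible complexes

Let `T` be a tree, finite or infinite, whose edges are labelled by arbitrary vertices, and `v₀` a
vertex.  An orientation of the edges gives the 2-complex `K` with the 1-cells `x_v` (`v` a vertex) and
the 2-cells with boundary `x_i x_l x_t⁻¹ x_l⁻¹`, where `i`, `t`, `l` are the initial vertex, the
terminal vertex and the label of an edge.  Let `f` be one more 2-cell, attached along the loop
`x_{v₀}`.  Then `K ∪ f` is contractible.

Definitions (`LOG`, `Conn`, `LocInd`: `Pool.Agent.TH625.LOG`, starting library; all others: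
`Pool.Agent.Q172.LT`).

* `Acyclic L`: no edge lies on a circuit; `reorient L o`: the edges `e` with `o e = true` are
  reversed;
* `Contractible L v₀`: `K ∪ f` has trivial fundamental group and injective boundary operator
  `C₂ → C₁`;
* `far L v₀ e`: the vertices on the side of the edge `e` which does not contain `v₀`;
* `sub L W F`: the subcomplex with the 1-cells `W` and the 2-cells `F`; `Aspherical`: the boundary
  operator `C₂ → C₁` of its universal covering is injective; `AsphericalF`, `Gf`: the same, and the
  fundamental group, for the subcomplex together with `f`;
* `BranchGood L v₀`: asphericity and locally indicable fundamental groups for (a) all subcomplexes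
  without `f`, (b) all subcomplexes `K'` with `f` such that the vertices not joined with `v₀` in `K'`
  are those on the other side of some edge `e`, or there are none, (c) `K ∪ f` without the 2-cell `e`,
  for all `e`.
-/

set_option autoImplicit false

namespace Pool.Agent.Results.MP_cf50d6_gt.BranchesRemoved

open Pool.Agent.TH625.LOG Pool.Agent.Q172.LT

/-- Let `L` be a labelled oriented tree, finite or infinite, and `v₀` a vertex.  All complexes `K ∪ f`
of the reorientations of `L` are contractible, and there is a reorientation such that it and its
reverse have the property `BranchGood`. -/
theorem result {V E : Type} (L : LOG V E) (hL : L.Conn) (ha : Acyclic L) (v₀ : V) :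
    (∀ o : E → Bool, Contractible (reorient L o) v₀) ∧
    ∃ o : E → Bool, BranchGood (reorient L o) v₀ ∧ BranchGood (reorient L fun e => !o e) v₀ := by
  obtain ⟨r⟩ := exists_rooted L hL ha v₀
  obtain ⟨o, ho⟩ := r.exists_branches
  exact ⟨fun o => contractible_tree _ (reorient_conn L hL o) (acyclic_reorient L ha o) v₀,
    o, branchGood_pair r o ho⟩

end Pool.Agent.Results.MP_cf50d6_gt.BranchesRemoved
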