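import Pool.Agent.Q172.LT.Inf

/-!
# Orientations of finite and infinite labelled trees

A labelled tree is a tree, finite or infinite and not necessarily locally finite, with a label of
every edge, which is an arbitrary vertex.  An orientation of its edges gives a labelled oriented
tree; its 2-complex has one vertex, the 1-cells `x_v` (`v` a vertex of the tree) and the 2-cells with
boundary `x_i x_l x_t⁻¹ x_l⁻¹`, where `i`, `t`, `l` are the initial vertex, the terminal vertex and
the label of an edge.  If a 2-cell is attached along one loop `x_{v₀}`, the result is a contractible
2-complex.

Definitions (`LOG`, `Conn`, `Folds`, `LocInd`: `Pool.Agent.TH625.LOG`, starting library; all others: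
`Pool.Agent.Q172.LT`).

* `reorient L o`: the edges `e` with `o e = true` are reversed;
* `Acyclic L`: no edge lies on a circuit;
* `Contractible L v₀`: the complex of `L` with a 2-cell attached along `x_{v₀}` is contractible: its
  fundamental group is trivial and its cellular boundary operator `C₂ → C₁` is injective;
* `Aspherical L`: the boundary operator from the 2-chains to the 1-chains of the universal covering
  is injective; `Good L`: `Aspherical L`, every closed diagram in the universal covering is
  reducible, and the fundamental group is locally indicable;
* `GoodOn L A`: all subcomplexes (with an arbitrary set of 1-cells) with 2-cells in `A` are good.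
-/

set_option autoImplicit false

namespace Pool.Agent.Results.MP_cf50d6_gt.InfiniteTrees

open Pool.Agent.TH625.LOG Pool.Agent.Q172.LT

/-- Let `L` be a labelled oriented tree, finite or infinite, and `v₀` a vertex.

(1) The complexes of all orientations of `L` are subcomplexes of contractible 2-complexes.

(2) There is an orientation such that all subcomplexes of its complex, and all subcomplexes of the
complex of the opposite orientation, have locally indicable fundamental groups and are aspherical.

(3) The 2-cells of the complex of `L` itself can be divided into two classes such that all
subcomplexes with 2-cells in one of the classes have these properties. -/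
theorem result {V E : Type} (L : LOG V E) (hL : L.Conn) (ha : Acyclic L) (v₀ : V) :
    (∀ o : E → Bool, Contractible (reorient L o) v₀) ∧
    ∃ o : E → Bool, GoodOn (reorient L o) Set.univ ∧ GoodOn (reorient L fun e => !o e) Set.univ ∧
      GoodOn L {e | o e = false} ∧ GoodOn L {e | o e = true} := by
  refine ⟨fun o => contractible_tree _ (reorient_conn L hL o) (acyclic_reorient L ha o) v₀, ?_⟩
  obtain ⟨o, ho⟩ := exists_orientation L ha
  obtain ⟨h1, h2, h3, h4⟩ := split L o ho
  exact ⟨o, h3, h4, h1, h2⟩

end Pool.Agent.Results.MP_cf50d6_gt.InfiniteTrees
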