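import Pool.Agent.Q172.LT.Far

/-!
# Labelled rays: contractible complexes all of whose subcomplexes have locally indicable groups

Let the edges `j — j+1` (`j = 0, 1, …`) of a ray be labelled by arbitrary vertices.  An orientation of
the edges gives the infinite 2-complex `K` with the 1-cells `x_0, x_1, …` and the 2-cells with boundary
`x_i x_l x_t⁻¹ x_l⁻¹`, where `i`, `t`, `l` are the initial vertex, the terminal vertex and the label of
an edge.  Let `f` be one more 2-cell, attached along the loop `x_0`.  Then `K ∪ f` is contractible.

Definitions (`LOG`, `LocInd`: `Pool.Agent.TH625.LOG`, starting library; all others: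
`Pool.Agent.Q172.LT`).

* `ray lab`: the labelled ray with the edges oriented `j → j+1`; `reorient L o`: the edges `e` with
  `o e = true` are reversed;
* `Contractible L v₀`: `K ∪ f` has trivial fundamental group and injective boundary operator
  `C₂ → C₁`;
* `sub L W F`: the subcomplex with the 1-cells `W` and the 2-cells `F`; `Aspherical`: the boundary
  operator `C₂ → C₁` of its universal covering is injective;
* `AsphericalF`, `Gf`: the same, and the fundamental group, for the subcomplex together with `f`;
* `AllGood L v₀`: all subcomplexes of `K ∪ f`, with and without `f`, are aspherical and have locally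
  indicable fundamental groups.
-/

set_option autoImplicit false

namespace Pool.Agent.Results.MP_cf50d6_gt.LabelledRays

open Pool.Agent.TH625.LOG Pool.Agent.Q172.LT

/-- For every labelled ray all complexes `K ∪ f` are contractible, and there is an orientation such
that for it and for the opposite orientation all subcomplexes of `K ∪ f`, with and without `f`, finite
or infinite, have locally indicable fundamental groups and are aspherical. -/
theorem result (lab : ℕ → ℕ) :
    (∀ o : ℕ → Bool, Contractible (reorient (ray lab) o) 0) ∧
    ∃ o : ℕ → Bool, AllGood (reorient (ray lab) o) 0 ∧
      AllGood (reorient (ray lab) fun e => !o e) 0 := by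
  set L := ray lab with hL
  let r : Rooted L 0 := rayRoot lab
  have hc := conn_of_rooted L r
  have ha := acyclic_of_rooted L r
  have hd : Function.Injective r.dep := fun _ _ h => h
  obtain ⟨o, ho⟩ := r.exists_branches
  refine ⟨fun o => contractible_tree _ (reorient_conn L hc o) (acyclic_reorient L ha o) 0,
    o, (r.reor o).allGood_of_tests hd (Or.inl ho),
    (r.reor fun e => !o e).allGood_of_tests hd (Or.inr fun v => rightOn_compl L _ o (ho v))⟩

end Pool.Agent.Results.MP_cf50d6_gt.LabelledRays
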