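import Pool.Agent.Q179.ZP.Fam2
import Pool.Agent.Q179.ZP.Gen2

/-!
# Labelled oriented trees which can be zipped up: local indicability

The 2-complex `K(L)` of a labelled oriented graph `L` has one vertex, the 1-cells `x_v` (`v` a vertex of
`L`) and for every edge `e` a 2-cell with boundary `x_i x_l x_t⁻¹ x_l⁻¹`, where `i = ini e`, `t = ter e`,
`l = lab e` are the initial vertex, the terminal vertex and the label of `e`.  Its subcomplexes are the
complexes of the subgraphs `sub L V₁ E₁`.  If `L` is a finite labelled oriented tree and one more 2-cell is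
attached along one of the loops, the result is a finite contractible 2-complex.

Let `(V₀, E₀)` be a subgraph of `L`.  The zipping process (`Zipping`) starts with the edges `E₀` and the
vertices `V₀`; in every step one edge `e` and one vertex are added to the sets `S` and `U` of the old edges
and vertices:

* `ini`, `lab`: one of `ini e`, `lab e` is old and the other one is the new vertex (`ter e` is arbitrary);
* `close`: `ini e` and `lab e` are old; the new vertex is `ter f`, where either `f = e` and `ini e`, `lab e`
  are linked, or `f` and `ter e` are old and the pair `ini f`, `lab f` is linked to the pair `ini e`,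
  `lab e`, in one of the two possible orders.

Two vertices are linked (`Linked`) if they are joined by a chain of pairs of vertices of `V₀` and of pairs
`ini g`, `lab g` with `g` and `ter g` old.  The process may be stopped as soon as `(U, S)` is a subgraph, and
it may be repeated, for `L` or for the opposite labelled oriented graph `rev L`, starting with `(U, S)`:
`Built L U S` means that `(U, S)` arises in this way from a nonempty set of vertices without edges.  If only
the steps `ini` and `lab` occur, starting with one vertex, then the graph with the edges `{ini e, lab e}` is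
a tree; this is the criterion of Howie.
-/

set_option autoImplicit false

namespace Pool.Agent.Results.MP_cf50d6_gt.ZippedTrees

open Pool.Agent.TH625.LOG Pool.Agent.Q179.ZP

/-- **Zipping and local indicability.**

(1) Let `L` be a labelled oriented graph, finite or infinite, and let the subgraph `(U, S)` arise from the
subgraph `(V₀, E₀)`, `V₀ ≠ ∅`, by the zipping process for `L` or for `rev L`.  Then for all
subgraphs `(V₁, E₁)` of `(U, S)` with `V₀ ⊆ V₁` the group of `(V₀, E₀ ∩ E₁)` is a subgroup of the group
of `(V₁, E₁)`, and the group of `(V₁, E₁)` is locally indicable if and only if the group of `(V₀, E₀ ∩ E₁)`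
is.

(2) If `L` can be built up from vertices by repeated zipping, then the fundamental groups of all
subcomplexes of `K(L)` are locally indicable.

(3) If `L` is a finite labelled oriented tree, then `K(L)` with one more 2-cell is contractible.

(4) For every `k ≥ 1` there is a labelled oriented interval `L` with the vertices `0, …, 3 k + 1`, such that
the fundamental groups of all subcomplexes of `K(L)` are locally indicable, and: no proper subinterval with an edge contains the labels of
its edges; two edges have the same label; no label is an end of its edge; the graphs with the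
edges `{ini e, lab e}` and with the edges `{ter e, lab e}` have at least `k + 1` components each (and so `k`
independent circuits each); at least `k / 2` vertices are needed to obtain all vertices, if with the label and one
end of an edge also the other end may be added. -/
theorem result :
    (∀ {V E : Type} (L : LOG V E) (V₀ V₁ U : Set V) (E₀ E₁ S : Set E) (h₀ : Closed L V₀ E₀)
      (h₁ : Closed L V₁ E₁), V₀.Nonempty → Zipping L V₀ E₀ S U ∨ Zipping (rev L) V₀ E₀ S U →
      Closed L U S → V₀ ⊆ V₁ → V₁ ⊆ U → E₁ ⊆ S →
      (∃ φ : (sub L V₀ (E₀ ∩ E₁) fun e he => h₀ e he.1).G →* (sub L V₁ E₁ h₁).G,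
        Function.Injective φ ∧ ∀ (v : V) (hv : v ∈ V₀) (hv1 : v ∈ V₁),
          φ ((sub L V₀ (E₀ ∩ E₁) fun e he => h₀ e he.1).gen ⟨v, hv⟩) =
            (sub L V₁ E₁ h₁).gen ⟨v, hv1⟩) ∧
      (LocInd (sub L V₁ E₁ h₁).G ↔ LocInd (sub L V₀ (E₀ ∩ E₁) fun e he => h₀ e he.1).G)) ∧
    (∀ {V E : Type} (L : LOG V E), Built L Set.univ Set.univ →
      ∀ (V₁ : Set V) (E₁ : Set E) (h₁ : Closed L V₁ E₁), LocInd (sub L V₁ E₁ h₁).G) ∧
    (∀ {V E : Type} [Fintype V] [Fintype E] [DecidableEq V] (L : LOG V E), L.Conn →
      Fintype.card V = Fintype.card E + 1 → ∀ v₀ : V, L.ContractibleWith v₀) ∧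
    ∀ k : ℕ, 1 ≤ k → ∃ L : LOG (Fin (3 * k + 2)) (Fin (3 * k + 1)),
      (∀ i : Fin (3 * k + 1), (L.ini i = i.castSucc ∧ L.ter i = i.succ) ∨
        (L.ini i = i.succ ∧ L.ter i = i.castSucc)) ∧
      (∀ (V₁ : Set (Fin (3 * k + 2))) (E₁ : Set (Fin (3 * k + 1))) (h₁ : Closed L V₁ E₁),
        LocInd (sub L V₁ E₁ h₁).G) ∧
      (∀ a b : ℕ, a < b → b ≤ 3 * k + 1 →
        (∀ e : Fin (3 * k + 1), a ≤ e.val → e.val < b → a ≤ (L.lab e).val ∧ (L.lab e).val ≤ b) →
          a = 0 ∧ b = 3 * k + 1) ∧
      ¬ Function.Injective L.lab ∧ (∀ e, L.lab e ≠ L.ini e ∧ L.lab e ≠ L.ter e) ∧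
      (∃ c : Fin (3 * k + 2) → Fin (k + 1), Function.Surjective c ∧
        ∀ e, c (L.ini e) = c (L.lab e)) ∧
      (∃ c : Fin (3 * k + 2) → Fin (k + 1), Function.Surjective c ∧
        ∀ e, c (L.ter e) = c (L.lab e)) ∧
      ∀ S : Finset (Fin (3 * k + 2)), (∀ v, Spread L (S : Set (Fin (3 * k + 2))) v) →
        k ≤ 2 * S.card := by
  refine ⟨fun L V₀ V₁ U E₀ E₁ S h₀ h₁ hne hz hU hV hV' hE => ?_, fun L hL V₁ E₁ h₁ =>
    (hL.good V₁ E₁ h₁ (Set.subset_univ _) (Set.subset_univ _)).2,
    fun L hL hc v₀ => contractibleWith L hL hc v₀, fun k hk => ?_⟩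
  · exact ⟨⟨incG (closed_inter h₀) h₁ hV Set.inter_subset_right,
      rel_inj h₀ hne hz hU h₁ hV hV' hE, fun v hv _ => incG_gen _ h₁ hV _ ⟨v, hv⟩⟩,
      rel_locInd h₀ hne hz hU h₁ hV hV' hE⟩
  · exact ⟨fam k, fam_ends k, fun V₁ E₁ h₁ => locInd_final_all (lst k) (Or.inl (fam_zips k hk)) h₁,
      fam_prime k hk, fam_not_inj k hk, fam_red k hk, fam_ini k, fam_ter k, fam_complexity k⟩

end Pool.Agent.Results.MP_cf50d6_gt.ZippedTrees
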